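import Mathlib
import Pool.Agent.Lib.MP_0955de_an.Alg

/-!
Q1 of MP_0955de_an: two oblique observations of the periodic beam at distinct non-integer
speeds always satisfy the inverse inequality.
-/

open MeasureTheory Set intervalIntegral Pool.Agent.Lib.MP_0955de_an

namespace Pool.Agent.Results.MP_0955de_an.TwoSegmentObservability

/-- The solution of the beam equation with (finitely supported) coefficients `cp`, `cm`. -/
noncomputable def beam (cp cm : ℤ →₀ ℂ) (t x : ℝ) : ℂ :=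
  cp 0 + cm 0 * (t : ℂ) + ∑ k ∈ (cp.support ∪ cm.support).erase 0,
    (cp k * Complex.exp (Complex.I * (k : ℂ) ^ 2 * (t : ℂ)) +
      cm k * Complex.exp (-(Complex.I * (k : ℂ) ^ 2 * (t : ℂ)))) *
      Complex.exp (Complex.I * (k : ℂ) * (x : ℂ))

/-- The two-segment inverse inequality. -/
def TwoSegment (a1 a2 t1 x1 t2 x2 T : ℝ) : Prop :=
  ∃ C : ℝ, ∀ cp cm : ℤ →₀ ℂ,
    ∑ k ∈ cp.support ∪ cm.support, (‖cp k‖ ^ 2 + ‖cm k‖ ^ 2) ≤
      C * ∫ t in (0 : ℝ)..T, (‖beam cp cm (t1 + t) (x1 - a1 * t)‖ ^ 2 +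
        ‖beam cp cm (t2 + t) (x2 - a2 * t)‖ ^ 2)

/-- The coefficients as one family. -/
noncomputable def cf (cp cm : ℤ →₀ ℂ) (j : ℤ × Bool) : ℂ := if j.2 then cp j.1 else cm j.1

/-- The phases. -/
noncomputable def ph (t0 x0 : ℝ) (j : ℤ × Bool) : ℂ :=
  Complex.exp (Complex.I * (((if j.2 then (j.1 : ℝ) ^ 2 else -(j.1 : ℝ) ^ 2) * t0 +
    j.1 * x0 : ℝ) : ℂ))

lemma norm_ph (t0 x0 : ℝ) (j : ℤ × Bool) : ‖ph t0 x0 j‖ = 1 := by
  unfold ph
  rw [mul_comm]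
  exact Complex.norm_exp_ofReal_mul_I _

lemma ph_ne (t0 x0 : ℝ) (j : ℤ × Bool) : ph t0 x0 j ≠ 0 := by
  unfold ph
  exact Complex.exp_ne_zero _

/-- The observation along a line as an exponential sum. -/
lemma beam_eq_est (cp cm : ℤ →₀ ℂ) (a t0 x0 : ℝ) (J : Finset (ℤ × Bool))
    (hJ : ∀ j ∈ J, j.1 ≠ 0)
    (hJ2 : (cp.support ∪ cm.support).erase 0 ×ˢ Finset.univ ⊆ J) (t : ℝ) :
    beam cp cm (t0 + t) (x0 - a * t) =
      est (J.image (ev a)) (mg a J (ph t0 x0) (cf cp cm)) 0 (cp 0 + cm 0 * (t0 : ℂ)) (cm 0) t := by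
  unfold beam est
  have h1 : es (J.image (ev a)) (mg a J (ph t0 x0) (cf cp cm)) t =
      ∑ j ∈ J, (ph t0 x0 j * cf cp cm j) * Complex.exp (Complex.I * (ev a j : ℂ) * (t : ℂ)) := by
    unfold es mg
    rw [← Finset.sum_fiberwise_of_maps_to (t := J.image (ev a)) (g := ev a)
      (fun j hj => Finset.mem_image_of_mem _ hj)]
    apply Finset.sum_congr rfl
    intro x _
    rw [Finset.sum_mul]
    apply Finset.sum_congr rfl
    intro j hj
    rw [Finset.mem_filter] at hj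
    rw [hj.2]
  have h2 : ∑ j ∈ J, (ph t0 x0 j * cf cp cm j) *
      Complex.exp (Complex.I * (ev a j : ℂ) * (t : ℂ)) =
      ∑ j ∈ (cp.support ∪ cm.support).erase 0 ×ˢ Finset.univ, (ph t0 x0 j * cf cp cm j) *
      Complex.exp (Complex.I * (ev a j : ℂ) * (t : ℂ)) := by
    symm
    apply Finset.sum_subset hJ2
    rintro ⟨k, s⟩ hj hj'
    have hk0 : k ≠ 0 := hJ _ hj
    have hk : k ∉ cp.support ∪ cm.support := by
      intro h
      apply hj'
      rw [Finset.mem_product]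
      exact ⟨Finset.mem_erase.2 ⟨hk0, h⟩, Finset.mem_univ _⟩
    rw [Finset.mem_union, not_or, Finsupp.notMem_support_iff, Finsupp.notMem_support_iff] at hk
    have : cf cp cm (k, s) = 0 := by
      unfold cf
      cases s
      · exact hk.2
      · exact hk.1
    rw [this, mul_zero, zero_mul]
  rw [h1, h2, Finset.sum_product]
  have h3 : ∀ k : ℤ, ∑ s : Bool, (ph t0 x0 (k, s) * cf cp cm (k, s)) *
      Complex.exp (Complex.I * (ev a (k, s) : ℂ) * (t : ℂ)) =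
      (cp k * Complex.exp (Complex.I * (k : ℂ) ^ 2 * ((t0 + t : ℝ) : ℂ)) +
      cm k * Complex.exp (-(Complex.I * (k : ℂ) ^ 2 * ((t0 + t : ℝ) : ℂ)))) *
      Complex.exp (Complex.I * (k : ℂ) * ((x0 - a * t : ℝ) : ℂ)) := by
    intro k
    rw [Fintype.sum_bool, ev_true, ev_false]
    have e1 : ph t0 x0 (k, true) * Complex.exp (Complex.I * (((k : ℝ) ^ 2 - a * k : ℝ) : ℂ) *
        (t : ℂ)) = Complex.exp (Complex.I * (k : ℂ) ^ 2 * ((t0 + t : ℝ) : ℂ)) *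
        Complex.exp (Complex.I * (k : ℂ) * ((x0 - a * t : ℝ) : ℂ)) := by
      unfold ph
      rw [← Complex.exp_add, ← Complex.exp_add]
      congr 1
      simp only [if_true]
      push_cast
      ring
    have e2 : ph t0 x0 (k, false) * Complex.exp (Complex.I * ((-(k : ℝ) ^ 2 - a * k : ℝ) : ℂ) *
        (t : ℂ)) = Complex.exp (-(Complex.I * (k : ℂ) ^ 2 * ((t0 + t : ℝ) : ℂ))) *
        Complex.exp (Complex.I * (k : ℂ) * ((x0 - a * t : ℝ) : ℂ)) := by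
      unfold ph
      rw [← Complex.exp_add, ← Complex.exp_add]
      congr 1
      simp only [Bool.false_eq_true, if_false]
      push_cast
      ring
    have e3 : cf cp cm (k, true) = cp k := rfl
    have e4 : cf cp cm (k, false) = cm k := rfl
    rw [e3, e4]
    calc _ = cp k * (ph t0 x0 (k, true) * Complex.exp (Complex.I *
          (((k : ℝ) ^ 2 - a * k : ℝ) : ℂ) * (t : ℂ))) +
          cm k * (ph t0 x0 (k, false) * Complex.exp (Complex.I *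
          ((-(k : ℝ) ^ 2 - a * k : ℝ) : ℂ) * (t : ℂ))) := by ring
      _ = _ := by rw [e1, e2]; ring
  simp_rw [h3]
  simp only [Complex.ofReal_zero, mul_zero, zero_mul, Complex.exp_zero, mul_one]
  push_cast
  ring

/-- The fibre of a far mode is a singleton. -/
lemma fibre_far {a : ℝ} (ha : NonInt a) {M : ℕ} (hM : 2 * |a| ≤ M) {j j' : ℤ × Bool}
    (hj : j ∉ box M) (h : ev a j' = ev a j) : j' = j := by
  by_cases hs : j'.2 = j.2
  · exact ev_bool_inj ha h hs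
  · exfalso
    apply hj
    rw [mem_box]
    obtain ⟨k, s⟩ := j
    obtain ⟨l, s'⟩ := j'
    show |k| ≤ (M : ℤ)
    have hb : |(k : ℝ)| ≤ 2 * |a| := by
      cases s <;> cases s'
      · exact absurd rfl hs
      · exact (circle_bound ha.ne_zero ((ev_eq_iff a l k).1 h)).2
      · exact (circle_bound ha.ne_zero ((ev_eq_iff a k l).1 h.symm)).1
      · exact absurd rfl hs
    have : |(k : ℝ)| ≤ (M : ℝ) := hb.trans hM
    exact_mod_cast this

theorem main (a1 a2 : ℝ) (h12 : a1 ≠ a2) (ha1 : NonInt a1) (ha2 : NonInt a2)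
    (t1 x1 t2 x2 T : ℝ) (hT : 0 < T) : TwoSegment a1 a2 t1 x1 t2 x2 T := by
  classical
  obtain ⟨C1, hC1, hO1⟩ := obsT_Lam ha1 hT
  obtain ⟨C2, hC2, hO2⟩ := obsT_Lam ha2 hT
  set M : ℕ := ⌈2 * max |a1| |a2|⌉₊ with hM
  have hM1 : 2 * |a1| ≤ M := by
    refine le_trans ?_ (Nat.le_ceil _)
    have := le_max_left |a1| |a2|
    linarith
  have hM2 : 2 * |a2| ≤ M := by
    refine le_trans ?_ (Nat.le_ceil _)
    have := le_max_right |a1| |a2|
    linarith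
  set B : Finset (ℤ × Bool) := (box M).filter (fun j => j.1 ≠ 0) with hB
  have hB0 : ∀ j ∈ B, j.1 ≠ 0 := fun j hj => (Finset.mem_filter.1 hj).2
  obtain ⟨K, hK0, hK⟩ := finite_bound ha1 ha2 h12 B hB0 (ph t1 x1) (ph t2 x2)
    (ph_ne t1 x1) (ph_ne t2 x2)
  refine ⟨(1 + B.card * K ^ 2 + 3 + 2 * t1 ^ 2) * (C1 + C2), ?_⟩
  intro cp cm
  set K0 := (cp.support ∪ cm.support).erase 0 with hK0def
  set J : Finset (ℤ × Bool) := (K0 ×ˢ Finset.univ) ∪ B with hJ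
  have hJ0 : ∀ j ∈ J, j.1 ≠ 0 := by
    intro j hj
    rcases Finset.mem_union.1 hj with h | h
    · exact (Finset.mem_erase.1 (Finset.mem_product.1 h).1).1
    · exact hB0 j h
  have hJ2 : K0 ×ˢ Finset.univ ⊆ J := Finset.subset_union_left
  have hBJ : B ⊆ J := Finset.subset_union_right
  have hnot : ∀ j ∈ J, j ∉ B → j ∉ box M := by
    intro j hj hjB h
    exact hjB (Finset.mem_filter.2 ⟨h, hJ0 j hj⟩)
  set c := cf cp cm with hc
  set m1 := mg a1 J (ph t1 x1) c with hm1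
  set m2 := mg a2 J (ph t2 x2) c with hm2
  set I1 := ∫ t in (0 : ℝ)..T, ‖beam cp cm (t1 + t) (x1 - a1 * t)‖ ^ 2 with hI1
  set I2 := ∫ t in (0 : ℝ)..T, ‖beam cp cm (t2 + t) (x2 - a2 * t)‖ ^ 2 with hI2
  have hI10 : 0 ≤ I1 := intervalIntegral.integral_nonneg hT.le fun t _ => by positivity
  have hI20 : 0 ≤ I2 := intervalIntegral.integral_nonneg hT.le fun t _ => by positivity
  -- the two observations
  have hb1 := hO1 (J.image (ev a1)) m1 (cp 0 + cm 0 * (t1 : ℂ)) (cm 0) (by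
    intro x hx
    rw [Finset.mem_coe, Finset.mem_image] at hx
    obtain ⟨j, hj, rfl⟩ := hx
    exact ⟨j, hJ0 j hj, rfl⟩)
  have hb2 := hO2 (J.image (ev a2)) m2 (cp 0 + cm 0 * (t2 : ℂ)) (cm 0) (by
    intro x hx
    rw [Finset.mem_coe, Finset.mem_image] at hx
    obtain ⟨j, hj, rfl⟩ := hx
    exact ⟨j, hJ0 j hj, rfl⟩)
  have hi1 : ∫ t in (0 : ℝ)..T, ‖est (J.image (ev a1)) m1 0 (cp 0 + cm 0 * (t1 : ℂ)) (cm 0) t‖ ^ 2 =
      I1 := by
    rw [hI1]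
    congr 1
    funext t
    rw [beam_eq_est cp cm a1 t1 x1 J hJ0 hJ2 t]
  have hi2 : ∫ t in (0 : ℝ)..T, ‖est (J.image (ev a2)) m2 0 (cp 0 + cm 0 * (t2 : ℂ)) (cm 0) t‖ ^ 2 =
      I2 := by
    rw [hI2]
    congr 1
    funext t
    rw [beam_eq_est cp cm a2 t2 x2 J hJ0 hJ2 t]
  rw [hi1] at hb1
  rw [hi2] at hb2
  set S1 := ∑ x ∈ J.image (ev a1), ‖m1 x‖ ^ 2 with hS1
  set S2 := ∑ x ∈ J.image (ev a2), ‖m2 x‖ ^ 2 with hS2
  have hS10 : 0 ≤ S1 := Finset.sum_nonneg fun _ _ => by positivity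
  have hS20 : 0 ≤ S2 := Finset.sum_nonneg fun _ _ => by positivity
  -- far modes
  have hfar : ∑ j ∈ J \ B, ‖c j‖ ^ 2 ≤ S1 := by
    have h1 : ∀ j ∈ J \ B, ‖c j‖ ^ 2 = ‖m1 (ev a1 j)‖ ^ 2 := by
      intro j hj
      rw [Finset.mem_sdiff] at hj
      have h2 : m1 (ev a1 j) = ph t1 x1 j * c j := by
        rw [hm1]
        unfold mg
        apply Finset.sum_eq_single_of_mem
        · exact Finset.mem_filter.2 ⟨hj.1, rfl⟩
        · intro j' hj' hne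
          exfalso
          apply hne
          exact fibre_far ha1 hM1 (hnot j hj.1 hj.2) (Finset.mem_filter.1 hj').2
      rw [h2, norm_mul, norm_ph, one_mul]
    rw [Finset.sum_congr rfl h1]
    have hinj : Set.InjOn (ev a1) ((J \ B : Finset (ℤ × Bool)) : Set (ℤ × Bool)) := by
      intro j hj j' hj' h
      rw [Finset.mem_coe, Finset.mem_sdiff] at hj'
      exact fibre_far ha1 hM1 (hnot j' hj'.1 hj'.2) h
    rw [← Finset.sum_image (f := fun x => ‖m1 x‖ ^ 2) hinj, hS1]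
    apply Finset.sum_le_sum_of_subset_of_nonneg
    · exact Finset.image_subset_image Finset.sdiff_subset
    · intro _ _ _
      positivity
  -- near modes
  have hmgB : ∀ (a : ℝ), NonInt a → 2 * |a| ≤ M → ∀ φ : ℤ × Bool → ℂ, ∀ j ∈ B,
      mg a B φ c (ev a j) = mg a J φ c (ev a j) := by
    intro a ha hMa φ j hj
    unfold mg
    apply Finset.sum_subset
    · intro j' hj'
      rw [Finset.mem_filter] at hj' ⊢
      exact ⟨hBJ hj'.1, hj'.2⟩
    · intro j' hj' hj'B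
      exfalso
      rw [Finset.mem_filter] at hj'
      apply hj'B
      rw [Finset.mem_filter]
      refine ⟨?_, hj'.2⟩
      by_contra hcon
      have := fibre_far ha hMa (hnot j' hj'.1 hcon) hj'.2.symm
      rw [← this] at hcon
      exact hcon hj
  have hnear : ∀ j ∈ B, ‖c j‖ ≤ K * Real.sqrt (S1 + S2) := by
    apply hK c (Real.sqrt (S1 + S2)) (Real.sqrt_nonneg _)
    · intro j hj
      rw [hmgB a1 ha1 hM1 _ j hj]
      apply Real.le_sqrt_of_sq_le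
      have : ‖m1 (ev a1 j)‖ ^ 2 ≤ S1 := Finset.single_le_sum
        (f := fun x => ‖m1 x‖ ^ 2) (fun _ _ => by positivity)
        (Finset.mem_image_of_mem _ (hBJ hj))
      linarith
    · intro j hj
      rw [hmgB a2 ha2 hM2 _ j hj]
      apply Real.le_sqrt_of_sq_le
      have : ‖m2 (ev a2 j)‖ ^ 2 ≤ S2 := Finset.single_le_sum
        (f := fun x => ‖m2 x‖ ^ 2) (fun _ _ => by positivity)
        (Finset.mem_image_of_mem _ (hBJ hj))
      linarith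
  have hnear2 : ∑ j ∈ B, ‖c j‖ ^ 2 ≤ B.card * K ^ 2 * (S1 + S2) := by
    calc ∑ j ∈ B, ‖c j‖ ^ 2 ≤ ∑ j ∈ B, K ^ 2 * (S1 + S2) := by
          apply Finset.sum_le_sum
          intro j hj
          have h1 := hnear j hj
          have h2 : (K * Real.sqrt (S1 + S2)) ^ 2 = K ^ 2 * (S1 + S2) := by
            rw [mul_pow, Real.sq_sqrt (by linarith)]
          rw [← h2]
          gcongr
      _ = _ := by
          rw [Finset.sum_const, nsmul_eq_mul]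
          ring
  -- total
  have hsumJ : ∑ j ∈ J, ‖c j‖ ^ 2 ≤ (1 + B.card * K ^ 2) * (S1 + S2) := by
    rw [← Finset.sum_sdiff hBJ]
    nlinarith
  have hleft : ∑ k ∈ cp.support ∪ cm.support, (‖cp k‖ ^ 2 + ‖cm k‖ ^ 2) ≤
      (‖cp 0‖ ^ 2 + ‖cm 0‖ ^ 2) + ∑ j ∈ J, ‖c j‖ ^ 2 := by
    have h1 : ∑ k ∈ cp.support ∪ cm.support, (‖cp k‖ ^ 2 + ‖cm k‖ ^ 2) ≤
        (‖cp 0‖ ^ 2 + ‖cm 0‖ ^ 2) + ∑ k ∈ K0, (‖cp k‖ ^ 2 + ‖cm k‖ ^ 2) := by
      by_cases h0 : (0 : ℤ) ∈ cp.support ∪ cm.support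
      · rw [hK0def, Finset.add_sum_erase _ (fun k => ‖cp k‖ ^ 2 + ‖cm k‖ ^ 2) h0]
      · rw [hK0def, Finset.erase_eq_of_notMem h0]
        have : 0 ≤ ‖cp 0‖ ^ 2 + ‖cm 0‖ ^ 2 := by positivity
        linarith
    have h2 : ∑ k ∈ K0, (‖cp k‖ ^ 2 + ‖cm k‖ ^ 2) = ∑ j ∈ K0 ×ˢ Finset.univ, ‖c j‖ ^ 2 := by
      rw [Finset.sum_product]
      apply Finset.sum_congr rfl
      intro k _
      rw [Fintype.sum_bool]
      rfl
    have h3 : ∑ j ∈ K0 ×ˢ Finset.univ, ‖c j‖ ^ 2 ≤ ∑ j ∈ J, ‖c j‖ ^ 2 :=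
      Finset.sum_le_sum_of_subset_of_nonneg hJ2 (fun _ _ _ => by positivity)
    linarith
  have hcp0 : ‖cp 0‖ ^ 2 ≤ 2 * ‖cp 0 + cm 0 * (t1 : ℂ)‖ ^ 2 + 2 * t1 ^ 2 * ‖cm 0‖ ^ 2 := by
    have h1 : cp 0 = (cp 0 + cm 0 * (t1 : ℂ)) - cm 0 * (t1 : ℂ) := by ring
    have h2 := norm_sub_le (cp 0 + cm 0 * (t1 : ℂ)) (cm 0 * (t1 : ℂ))
    rw [← h1] at h2
    have h3 : ‖cm 0 * (t1 : ℂ)‖ ^ 2 = t1 ^ 2 * ‖cm 0‖ ^ 2 := by
      rw [norm_mul, mul_pow, Complex.norm_real, Real.norm_eq_abs, sq_abs]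
      ring
    have h4 := norm_nonneg (cp 0)
    nlinarith [sq_nonneg (‖cp 0 + cm 0 * (t1 : ℂ)‖ - ‖cm 0 * (t1 : ℂ)‖)]
  have hint : ∫ t in (0 : ℝ)..T, (‖beam cp cm (t1 + t) (x1 - a1 * t)‖ ^ 2 +
        ‖beam cp cm (t2 + t) (x2 - a2 * t)‖ ^ 2) = I1 + I2 := by
    rw [hI1, hI2]
    apply intervalIntegral.integral_add
    · apply Continuous.intervalIntegrable
      unfold beam
      fun_prop
    · apply Continuous.intervalIntegrable
      unfold beam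
      fun_prop
  rw [hint]
  -- collect
  set A1 := ‖cp 0 + cm 0 * (t1 : ℂ)‖ ^ 2 with hA1
  set e0 := ‖cm 0‖ ^ 2 with he0
  have hA10 : 0 ≤ A1 := by positivity
  have he00 : 0 ≤ e0 := by positivity
  have hA20 : 0 ≤ ‖cp 0 + cm 0 * (t2 : ℂ)‖ ^ 2 := by positivity
  set Q := C1 * I1 + C2 * I2 with hQ
  have hQ1 : S1 + S2 ≤ Q := by linarith
  have hQ2 : A1 ≤ Q := by
    have : 0 ≤ C2 * I2 := by positivity
    linarith
  have hQ3 : e0 ≤ Q := by
    have : 0 ≤ C2 * I2 := by positivity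
    linarith
  have hQ4 : Q ≤ (C1 + C2) * (I1 + I2) := by
    have h1 : 0 ≤ C1 * I2 := by positivity
    have h2 : 0 ≤ C2 * I1 := by positivity
    rw [hQ]
    nlinarith
  have hBK : (0 : ℝ) ≤ B.card * K ^ 2 := by positivity
  have hQ0 : 0 ≤ Q := hA10.trans hQ2
  calc ∑ k ∈ cp.support ∪ cm.support, (‖cp k‖ ^ 2 + ‖cm k‖ ^ 2)
      ≤ (‖cp 0‖ ^ 2 + e0) + ∑ j ∈ J, ‖c j‖ ^ 2 := hleft
    _ ≤ (2 * A1 + 2 * t1 ^ 2 * e0 + e0) + (1 + B.card * K ^ 2) * (S1 + S2) := by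
        linarith
    _ ≤ (2 * Q + 2 * t1 ^ 2 * Q + Q) + (1 + B.card * K ^ 2) * Q := by
        have h5 : 2 * t1 ^ 2 * e0 ≤ 2 * t1 ^ 2 * Q := by gcongr
        have h6 : (1 + B.card * K ^ 2) * (S1 + S2) ≤ (1 + B.card * K ^ 2) * Q := by gcongr
        linarith
    _ = (1 + B.card * K ^ 2 + 3 + 2 * t1 ^ 2) * Q := by ring
    _ ≤ (1 + B.card * K ^ 2 + 3 + 2 * t1 ^ 2) * ((C1 + C2) * (I1 + I2)) := by gcongr
    _ = _ := by ring

/-- **Two oblique observations of the beam.** For all distinct non-integer speeds (real, in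
particular rational), all base points and every `T > 0`, the two-segment inverse inequality
holds. -/
theorem result (a1 a2 : ℝ) (h12 : a1 ≠ a2) (ha1 : ∀ n : ℤ, a1 ≠ n) (ha2 : ∀ n : ℤ, a2 ≠ n)
    (t1 x1 t2 x2 T : ℝ) (hT : 0 < T) : TwoSegment a1 a2 t1 x1 t2 x2 T :=
  main a1 a2 h12 ha1 ha2 t1 x1 t2 x2 T hT

end Pool.Agent.Results.MP_0955de_an.TwoSegmentObservability
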